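import Mathlib

/-!
Non-vanishing of an integral polynomial at an algebraic integer divided by a power of `q`, from
coprimality modulo a prime dividing `q - 1`.
-/

set_option autoImplicit false

namespace Pool.Agent.Y164.TP

open Polynomial

theorem map_scale {l : ℕ} {c : ℤ} {e : ZMod l} (hc : (c : ZMod l) * e = 1) (G : ℤ[X]) :
    (G.scaleRoots c).map (Int.castRingHom (ZMod l)) = C ((c : ZMod l) ^ G.natDegree) *
      (G.map (Int.castRingHom (ZMod l))).comp (C e * X) := by
  have h2 : ∀ i, ((G.map (Int.castRingHom (ZMod l))).comp (C e * X)).coeff i =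
      (G.map (Int.castRingHom (ZMod l))).coeff i * e ^ i := fun i => comp_C_mul_X_coeff
  ext i
  rw [coeff_map, coeff_scaleRoots, coeff_C_mul, h2, coeff_map, map_mul, map_pow]
  have h3 : (Int.castRingHom (ZMod l)) c = (c : ZMod l) := eq_intCast _ _
  rw [h3]
  by_cases h : i ≤ G.natDegree
  · have h4 : (c : ZMod l) ^ G.natDegree * e ^ i = (c : ZMod l) ^ (G.natDegree - i) := by
      have h5 : G.natDegree = (G.natDegree - i) + i := by omega
      conv_lhs => rw [h5]
      rw [pow_add, mul_assoc, ← mul_pow, hc, one_pow, mul_one]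
    rw [← h4]
    ring
  · push Not at h
    rw [coeff_eq_zero_of_natDegree_lt h, map_zero]
    ring

theorem not_integral {l : ℕ} (hl : 1 < l) {s : ℂ} (hs : IsIntegral ℤ s) : (l : ℂ) * s ≠ 1 := by
  intro h
  have hl0 : (l : ℂ) ≠ 0 := by exact_mod_cast (by omega : l ≠ 0)
  have h1 : s = algebraMap ℚ ℂ (1 / (l : ℚ)) := by
    rw [map_div₀, map_one, map_natCast, eq_div_iff hl0, mul_comm]
    exact h
  rw [h1, isIntegral_algebraMap_iff (algebraMap ℚ ℂ).injective] at hs
  obtain ⟨n, hn⟩ := IsIntegrallyClosed.isIntegral_iff.1 hs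
  have hlq : (l : ℚ) ≠ 0 := by exact_mod_cast (by omega : l ≠ 0)
  rw [eq_div_iff hlq] at hn
  have h2 : n * (l : ℤ) = 1 := by
    have : ((n * (l : ℤ) : ℤ) : ℚ) = ((1 : ℤ) : ℚ) := by
      push_cast
      simpa using hn
    exact_mod_cast this
  have h3 : (l : ℤ) ∣ 1 := ⟨n, by rw [mul_comm]; exact h2.symm⟩
  have h4 := Int.le_of_dvd one_pos h3
  omega

theorem eval_ne {l q : ℕ} [Fact l.Prime] (hq : (q : ZMod l) ≠ 0) {G Q : ℤ[X]}
    (hQ : Q.Monic) (h : ∀ s : ℕ, IsCoprime (Q.map (Int.castRingHom (ZMod l)))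
      ((G.map (Int.castRingHom (ZMod l))).comp (C ((q : ZMod l) ^ s) * X))) (m : ℕ) {β : ℂ}
    (hβ : aeval β Q = 0) : aeval (β / (q : ℂ) ^ m) G ≠ 0 := by
  intro h0
  have hl := (Fact.out : l.Prime).one_lt
  have hq0 : q ≠ 0 := by
    rintro rfl
    exact hq Nat.cast_zero
  have hfer : (q : ZMod l) ^ (l - 1) = 1 := ZMod.pow_card_sub_one_eq_one hq
  have hc : (((q : ℤ) ^ m : ℤ) : ZMod l) * ((q : ZMod l) ^ (m * (l - 2))) = 1 := by
    push_cast
    rw [← pow_add]
    have : m + m * (l - 2) = (l - 1) * m := by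
      obtain ⟨t, rfl⟩ : ∃ t, l = t + 2 := ⟨l - 2, by omega⟩
      rw [Nat.add_sub_cancel]
      have : t + 2 - 1 = t + 1 := by omega
      rw [this]
      ring
    rw [this, pow_mul, hfer, one_pow]
  have h' : IsCoprime (Q.map (Int.castRingHom (ZMod l)))
      ((G.scaleRoots ((q : ℤ) ^ m)).map (Int.castRingHom (ZMod l))) := by
    rw [map_scale hc G]
    apply IsCoprime.mul_right _ (h _)
    have hu : IsUnit (C ((((q : ℤ) ^ m : ℤ) : ZMod l) ^ G.natDegree) : (ZMod l)[X]) := by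
      rw [isUnit_C]
      apply IsUnit.pow
      exact IsUnit.of_mul_eq_one _ hc
    obtain ⟨w, hw⟩ := hu
    exact ⟨0, ↑w⁻¹, by rw [zero_mul, zero_add, ← hw, Units.inv_mul]⟩
  obtain ⟨a, b, hab⟩ := h'
  have hsurj : Function.Surjective (Polynomial.map (Int.castRingHom (ZMod l))) :=
    Polynomial.map_surjective _ (ZMod.ringHom_surjective _)
  obtain ⟨A, rfl⟩ := hsurj a
  obtain ⟨B, rfl⟩ := hsurj b
  set H := G.scaleRoots ((q : ℤ) ^ m) with hH
  have h1 : (A * Q + B * H - 1).map (Int.castRingHom (ZMod l)) = 0 := by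
    rw [Polynomial.map_sub, Polynomial.map_add, Polynomial.map_mul, Polynomial.map_mul, hab,
      Polynomial.map_one, sub_self]
  have h2 : C (l : ℤ) ∣ A * Q + B * H - 1 := by
    rw [C_dvd_iff_dvd_coeff]
    intro i
    have h3 := congrArg (fun p => p.coeff i) h1
    simp only [coeff_map, coeff_zero, eq_intCast] at h3
    exact (ZMod.intCast_zmod_eq_zero_iff_dvd _ _).1 h3
  obtain ⟨W, hW⟩ := h2
  have hHβ : aeval β H = 0 := by
    have hqc : (q : ℂ) ^ m ≠ 0 := pow_ne_zero _ (by exact_mod_cast hq0)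
    have h3 := scaleRoots_eval₂_mul (p := G) (algebraMap ℤ ℂ) (β / (q : ℂ) ^ m) ((q : ℤ) ^ m)
    have h4 : (algebraMap ℤ ℂ) ((q : ℤ) ^ m) * (β / (q : ℂ) ^ m) = β := by
      rw [map_pow, eq_intCast, Int.cast_natCast]
      field_simp
    rw [h4] at h3
    rw [aeval_def, hH, h3]
    rw [aeval_def] at h0
    rw [h0, mul_zero]
  have h5 := congrArg (aeval β) hW
  rw [map_sub, map_add, map_mul, map_mul, hβ, hHβ, mul_zero, mul_zero, add_zero, map_one,
    map_mul, aeval_C, zero_sub] at h5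
  have hint : IsIntegral ℤ β := ⟨Q, hQ, by rw [← aeval_def]; exact hβ⟩
  have hWi : IsIntegral ℤ (-aeval β W) := by
    apply IsIntegral.neg
    have h6 : aeval β W ∈ Algebra.adjoin ℤ {β} := aeval_mem_adjoin_singleton ℤ β
    exact (Algebra.adjoin_le (S := integralClosure ℤ ℂ) (by
      intro x hx
      rw [Set.mem_singleton_iff] at hx
      rw [hx]
      exact hint)) h6
  apply not_integral hl hWi
  have h7 : (algebraMap ℤ ℂ) (l : ℤ) = (l : ℂ) := by
    rw [eq_intCast, Int.cast_natCast]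
  rw [h7] at h5
  linear_combination h5

end Pool.Agent.Y164.TP
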