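import Mathlib

/-!
Tensor products of matrices of size two and their characteristic polynomials.
-/

set_option autoImplicit false

namespace Pool.Agent.Y164.TP

open Matrix

variable {R : Type} [CommRing R] {r : ℕ}

/-- the tensor product of a family of matrices of size two -/
def kron (A : Fin r → Matrix (Fin 2) (Fin 2) R) : Matrix (Fin r → Fin 2) (Fin r → Fin 2) R :=
  Matrix.of fun x y => ∏ i, A i (x i) (y i)

theorem kron_mul (A B : Fin r → Matrix (Fin 2) (Fin 2) R) :
    kron A * kron B = kron fun i => A i * B i := by
  ext x y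
  simp only [kron, Matrix.mul_apply, Matrix.of_apply]
  rw [Finset.prod_univ_sum]
  simp [Fintype.piFinset_univ, Finset.prod_mul_distrib]

theorem kron_one : kron (fun _ : Fin r => (1 : Matrix (Fin 2) (Fin 2) R)) = 1 := by
  ext x y
  simp only [kron, Matrix.of_apply]
  by_cases h : x = y
  · subst h
    simp
  · rw [Matrix.one_apply_ne h]
    obtain ⟨i, hi⟩ := Function.ne_iff.1 h
    exact Finset.prod_eq_zero (Finset.mem_univ i) (Matrix.one_apply_ne hi)

theorem kron_map {S : Type} [CommRing S] (f : R →+* S) (A : Fin r → Matrix (Fin 2) (Fin 2) R) :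
    (kron A).map f = kron fun i => (A i).map f := by
  ext x y
  simp [kron, Matrix.map_apply, map_prod]

theorem charpolyRev_conj {n : Type} [Fintype n] [DecidableEq n] (P P' A : Matrix n n R)
    (h : P * P' = 1) : (P * A * P').charpolyRev = A.charpolyRev := by
  have h1 : P.map Polynomial.C * P'.map Polynomial.C = 1 := by
    rw [← Matrix.map_mul, h]
    exact Matrix.map_one _ (map_zero _) (map_one _)
  have h2 : 1 - (Polynomial.X : Polynomial R) • (P * A * P').map Polynomial.C =
      P.map Polynomial.C * (1 - (Polynomial.X : Polynomial R) • A.map Polynomial.C) *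
        P'.map Polynomial.C := by
    rw [Matrix.mul_sub, Matrix.sub_mul, Matrix.mul_one, h1, Matrix.map_mul, Matrix.map_mul]
    simp only [Matrix.mul_smul, Matrix.smul_mul]
  unfold Matrix.charpolyRev
  rw [h2, Matrix.det_mul, Matrix.det_mul]
  have h3 : (P.map Polynomial.C).det * (P'.map Polynomial.C).det = 1 := by
    rw [← Matrix.det_mul, h1, Matrix.det_one]
  linear_combination (1 - (Polynomial.X : Polynomial R) • A.map Polynomial.C).det * h3

/-- the determinant of a matrix which is triangular for the pointwise order -/
theorem det_tri {S : Type} [CommRing S] (M : Matrix (Fin r → Fin 2) (Fin r → Fin 2) S)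
    (h : ∀ x y, ¬ x ≤ y → M x y = 0) : M.det = ∏ x, M x x := by
  classical
  have h1 := Matrix.det_submatrix_equiv_self (ofLex : Lex (Fin r → Fin 2) ≃ (Fin r → Fin 2)) M
  rw [← h1, Matrix.det_of_isUpperTriangular]
  · exact Fintype.prod_equiv ofLex _ _ fun x => rfl
  · intro x y hxy
    apply h
    intro hle
    exact absurd (Pi.toLex_monotone hle) (not_le.2 hxy)

theorem kron_tri (a b d : Fin r → R) :
    (kron fun i => !![a i, b i; 0, d i]).charpolyRev =
      ∏ x : Fin r → Fin 2, (1 - Polynomial.C (∏ i, if x i = 0 then a i else d i) *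
        Polynomial.X) := by
  unfold Matrix.charpolyRev
  rw [det_tri]
  · refine Finset.prod_congr rfl fun x _ => ?_
    rw [Matrix.sub_apply, Matrix.one_apply_eq, Matrix.smul_apply, Matrix.map_apply, smul_eq_mul,
      mul_comm]
    have h1 : (kron fun i => !![a i, b i; 0, d i]) x x = ∏ i, if x i = 0 then a i else d i := by
      unfold kron
      rw [Matrix.of_apply]
      refine Finset.prod_congr rfl fun i _ => ?_
      show (!![a i, b i; 0, d i] : Matrix (Fin 2) (Fin 2) R) (x i) (x i) =
        if x i = 0 then a i else d i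
      rcases Fin.exists_fin_two.1 ⟨x i, rfl⟩ with h | h <;> rw [h] <;> simp
    rw [h1]
  · intro x y hxy
    rw [Pi.le_def] at hxy
    push Not at hxy
    obtain ⟨i, hi⟩ := hxy
    have hne : x ≠ y := by
      rintro rfl
      exact lt_irrefl _ hi
    rw [Matrix.sub_apply, Matrix.one_apply_ne hne, Matrix.smul_apply, Matrix.map_apply]
    have h1 : (kron fun i => !![a i, b i; 0, d i]) x y = 0 := by
      unfold kron
      rw [Matrix.of_apply]
      apply Finset.prod_eq_zero (Finset.mem_univ i)
      have hx : x i = 1 := by omega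
      have hy : y i = 0 := by omega
      rw [hx, hy]
      simp
    rw [h1, map_zero, smul_zero, sub_zero]

/-- the number of zeros -/
def nz {r : ℕ} (x : Fin r → Fin 2) : ℕ := (Finset.univ.filter fun i => x i = 0).card

/-- the tensor product of companion matrices with the eigenvalues `ε i` and `ε i * c` -/
theorem kron_companion (c : R) (ε : Fin r → R) (hε : ∀ i, ε i ^ 2 = 1) :
    (kron fun i => !![0, -c; 1, ε i * (1 + c)]).charpolyRev =
      ∏ x : Fin r → Fin 2, (1 - Polynomial.C ((∏ i, ε i) * c ^ nz x) * Polynomial.X) := by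
  have e : ∀ x : Fin r → Fin 2, (∏ i, if x i = 0 then ε i * c else ε i) =
      (∏ i, ε i) * c ^ nz x := by
    intro x
    have e1 : ∀ i, (if x i = 0 then ε i * c else ε i) = ε i * (if x i = 0 then c else 1) := by
      intro i
      split_ifs
      · rfl
      · rw [mul_one]
    simp only [e1]
    rw [Finset.prod_mul_distrib, Finset.prod_ite, Finset.prod_const, Finset.prod_const_one,
      mul_one]
    rfl
  have h0 := kron_tri (fun i => ε i * c) (fun _ => -c) ε
  simp only [e] at h0
  rw [← h0, ← charpolyRev_conj (kron fun i => !![1, 0; ε i, 1])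
    (kron fun i => !![1, 0; -ε i, 1]) (kron fun i => !![0, -c; 1, ε i * (1 + c)])]
  · rw [kron_mul, kron_mul]
    congr 2
    funext i
    have h := hε i
    ext a b
    fin_cases a <;> fin_cases b <;> simp [Matrix.mul_apply, Fin.sum_univ_two]
    · ring
    · linear_combination -h
    · ring
  · rw [kron_mul, ← kron_one]
    congr 1
    funext i
    ext a b
    fin_cases a <;> fin_cases b <;> simp [Matrix.mul_apply, Fin.sum_univ_two]

end Pool.Agent.Y164.TP
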