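import Pool.Agent.TH639.B3.TwBd
import Pool.Agent.Y164.TP.Kron
import Pool.Agent.Y164.TP.Eval

/-!
The congruence for the `L`-function of a tensor product of elliptic curves.
-/

set_option autoImplicit false
set_option linter.all false
set_option maxHeartbeats 1000000

open FF Module

namespace Pool.Agent.Y164.TP

open Pool.Agent.W343.BSD Pool.Agent.W313.Gr Pool.Agent.H123R3.ZT Pool.Agent.W313.Hyp

section defs

variable {k K : Type} [Field k] [Field K] [Algebra k K]

/-- the matrix of the Frobenius -/
noncomputable def frob (v : FF.Place k K) (a b : K) : Matrix (Fin 2) (Fin 2) ℤ :=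
  !![0, -(Nat.card (S.Res v) : ℤ); 1, S.trace v a b]

/-- the Euler factor of the tensor product -/
noncomputable def tfac (v : FF.Place k K) {r : ℕ} (a b : Fin r → K) : Polynomial ℤ :=
  (kron fun i => frob v (a i) (b i)).charpolyRev.comp (Polynomial.X ^ S.deg v)

open Classical in
/-- the Euler product over the places outside `T` -/
noncomputable def LT (k : Type) {K : Type} [Field k] [Field K] [Algebra k K]
    (T : Finset (FF.Place k K)) {r : ℕ} (a b : Fin r → K) : PowerSeries ℤ :=
  eulerProd (fun v : FF.Place k K => S.deg v)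
    (fun v => if v ∈ T then 1 else PowerSeries.invOfUnit (tfac v a b : PowerSeries ℤ) 1)

end defs

section alg

theorem charpolyRev_map {n R R' : Type} [Fintype n] [DecidableEq n] [CommRing R] [CommRing R']
    (f : R →+* R') (A : Matrix n n R) : (A.map f).charpolyRev = A.charpolyRev.map f := by
  unfold Matrix.charpolyRev
  rw [← Polynomial.coe_mapRingHom, RingHom.map_det]
  congr 1
  ext i j : 2
  simp only [RingHom.mapMatrix_apply, Matrix.map_apply, Matrix.sub_apply, Matrix.smul_apply,
    smul_eq_mul, map_sub, map_mul, Polynomial.coe_mapRingHom, Polynomial.map_X, Polynomial.map_C]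
  congr 1
  by_cases h : i = j
  · subst h
    simp
  · simp [Matrix.one_apply_ne h]

theorem comp_pow_mod {R : Type} [CommRing R] {P : Polynomial R} (h : P.eval 0 = 1) (d : ℕ) :
    (PowerSeries.X : PowerSeries R) ^ d ∣ ((P.comp (Polynomial.X ^ d) : Polynomial R) :
      PowerSeries R) - 1 := by
  have h1 : Polynomial.X ∣ P - 1 := by
    rw [Polynomial.X_dvd_iff, Polynomial.coeff_zero_eq_eval_zero, Polynomial.eval_sub, h,
      Polynomial.eval_one, sub_self]
  obtain ⟨Q, hQ⟩ := h1
  have h2 : P.comp (Polynomial.X ^ d) - 1 = Polynomial.X ^ d * Q.comp (Polynomial.X ^ d) := by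
    have h3 := congrArg (fun p => Polynomial.comp p (Polynomial.X ^ d)) hQ
    simp only [Polynomial.sub_comp, Polynomial.one_comp, Polynomial.mul_comp,
      Polynomial.X_comp] at h3
    exact h3
  have h4 := congrArg (fun p : Polynomial R => (p : PowerSeries R)) h2
  simp only [Polynomial.coe_sub, Polynomial.coe_one, Polynomial.coe_mul, Polynomial.coe_pow,
    Polynomial.coe_X] at h4
  rw [h4]
  exact dvd_mul_right _ _

theorem inv_mod {R : Type} [CommRing R] {f g : PowerSeries R} {d : ℕ} (h : f * g = 1)
    (hf : (PowerSeries.X : PowerSeries R) ^ d ∣ f - 1) :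
    (PowerSeries.X : PowerSeries R) ^ d ∣ g - 1 := by
  have : g - 1 = -(g * (f - 1)) := by linear_combination h
  rw [this]
  exact (dvd_neg).2 (hf.mul_left _)

theorem map_mod {R S : Type} [CommRing R] [CommRing S] (φ : R →+* S) {f : PowerSeries R} {d : ℕ}
    (hf : (PowerSeries.X : PowerSeries R) ^ d ∣ f - 1) :
    (PowerSeries.X : PowerSeries S) ^ d ∣ PowerSeries.map φ f - 1 := by
  obtain ⟨g, hg⟩ := hf
  refine ⟨PowerSeries.map φ g, ?_⟩
  have h := congrArg (PowerSeries.map φ) hg
  rw [map_sub, map_one, map_mul, map_pow, PowerSeries.map_X] at h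
  exact h

theorem pow_mod {R : Type} [CommRing R] {f : PowerSeries R} {d : ℕ} (n : ℕ)
    (hf : (PowerSeries.X : PowerSeries R) ^ d ∣ f - 1) :
    (PowerSeries.X : PowerSeries R) ^ d ∣ f ^ n - 1 := by
  have h := sub_dvd_pow_sub_pow f 1 n
  rw [one_pow] at h
  exact hf.trans h

theorem eulerProd_pow {ι R : Type} [CommRing R] {d : ι → ℕ} (hfin : ∀ n, {i | d i ≤ n}.Finite)
    {f : ι → PowerSeries R} (hf : ∀ i, (PowerSeries.X : PowerSeries R) ^ d i ∣ f i - 1) (n : ℕ) :
    eulerProd d f ^ n = eulerProd d fun i => f i ^ n := by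
  have h := eulerProd_prod hfin (Finset.range n) (fun _ => f) (fun _ i => hf i)
  simp only [Finset.prod_const, Finset.card_range] at h
  exact h.symm

end alg

section main

variable {k K : Type} [Field k] [Finite k] [Field K] [Algebra k K] [FF.IsFF k K] {l : ℕ}
  {r : ℕ}

theorem tfac_zero (v : Place k K) (a b : Fin r → K) :
    (PowerSeries.X : PowerSeries ℤ) ^ S.deg v ∣ (tfac v a b : PowerSeries ℤ) - 1 :=
  comp_pow_mod Matrix.eval_charpolyRev _

theorem tfac_inv (v : Place k K) (a b : Fin r → K) :
    (tfac v a b : PowerSeries ℤ) * PowerSeries.invOfUnit (tfac v a b : PowerSeries ℤ) 1 = 1 := by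
  apply PowerSeries.mul_invOfUnit
  obtain ⟨g, hg⟩ := tfac_zero v a b
  have h1 := congrArg (PowerSeries.constantCoeff (R := ℤ)) hg
  have hd : 0 < S.deg v := by
    rw [S.deg_eq]
    exact H525R3.FFp.deg_pos v
  rw [map_sub, map_one, map_mul, map_pow, PowerSeries.constantCoeff_X, zero_pow hd.ne', zero_mul,
    sub_eq_zero] at h1
  rw [h1, Units.val_one]

theorem card_res (v : Place k K) : ((Nat.card (S.Res v) : ℕ) : ZMod l) =
    ((Nat.card k : ℕ) : ZMod l) ^ S.deg v := by
  have h1 : Nat.card (S.Res v) = Nat.card k ^ v.deg :=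
    Module.natCard_eq_pow_finrank (K := k) (V := v.RF)
  rw [h1, Nat.cast_pow, S.deg_eq]

theorem tfac_mod {v : Place k K} (a b : Fin r → K)
    (ε : Fin r → ZMod l) (hε : ∀ i, ε i ^ 2 = 1)
    (ht : ∀ i, ((S.trace v (a i) (b i) : ℤ) : ZMod l) =
      ε i * (1 + ((Nat.card k : ℕ) : ZMod l) ^ S.deg v)) :
    (tfac v a b).map (Int.castRingHom (ZMod l)) =
      ∏ x : Fin r → Fin 2, (1 - Polynomial.C ((∏ i, ε i) *
        (((Nat.card k : ℕ) : ZMod l) ^ S.deg v) ^ nz x) * Polynomial.X ^ S.deg v) := by
  unfold tfac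
  rw [Polynomial.map_comp, ← charpolyRev_map, kron_map, Polynomial.map_pow, Polynomial.map_X]
  have h1 : (fun i => (frob v (a i) (b i)).map (Int.castRingHom (ZMod l))) =
      fun i => !![0, -(((Nat.card k : ℕ) : ZMod l) ^ S.deg v);
        1, ε i * (1 + ((Nat.card k : ℕ) : ZMod l) ^ S.deg v)] := by
    funext i
    have hqc := card_res (l := l) v
    unfold frob
    ext x y
    fin_cases x <;> fin_cases y <;> simp [hqc, ht i]
  rw [h1, kron_companion _ ε hε, Polynomial.prod_comp]
  refine Finset.prod_congr rfl fun x _ => ?_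
  rw [Polynomial.sub_comp, Polynomial.one_comp, Polynomial.mul_comp, Polynomial.C_comp,
    Polynomial.X_comp]

theorem coe_map' {R S : Type} [CommRing R] [CommRing S] (φ : R →+* S) (P : Polynomial R) :
    PowerSeries.map φ (P : PowerSeries R) = ((P.map φ : Polynomial S) : PowerSeries S) := by
  ext n
  rw [PowerSeries.coeff_map, Polynomial.coeff_coe, Polynomial.coeff_coe, Polynomial.coeff_map]

/-- substitution of `q ^ n X` modulo `l` -/
noncomputable def sc (l q n : ℕ) (P : Polynomial ℤ) : Polynomial (ZMod l) :=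
  (P.map (Int.castRingHom (ZMod l))).comp (Polynomial.C ((q : ZMod l) ^ n) * Polynomial.X)

open Classical in
/-- the product of the factors of a character over the places outside `T` -/
noncomputable def charProd (T : Finset (Place k K)) (χ : Place k K → ℤ) : PowerSeries ℤ :=
  eulerProd (fun v : Place k K => S.deg v)
    (fun v => if v ∈ T then 1 else 1 - PowerSeries.C (χ v) * PowerSeries.X ^ S.deg v)

theorem deg_fin : ∀ n, {v : Place k K | S.deg v ≤ n}.Finite := fun n => by
  simp only [S.deg_eq]
  exact places_fin (k := k) (K := K) n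

theorem fac_mod (χ : ℤ) (d : ℕ) : (PowerSeries.X : PowerSeries ℤ) ^ d ∣
    (1 - PowerSeries.C χ * PowerSeries.X ^ d) - 1 := by
  rw [sub_right_comm, sub_self, zero_sub, dvd_neg]
  exact dvd_mul_left _ _

/-- splitting off the places in `T` -/
theorem split_T (T : Finset (Place k K)) (χ : Place k K → ℤ) :
    eulerProd (fun v : Place k K => S.deg v)
      (fun v => 1 - PowerSeries.C (χ v) * PowerSeries.X ^ S.deg v) =
    charProd T χ * ((∏ v ∈ T, (1 - Polynomial.C (χ v) * Polynomial.X ^ S.deg v) :
      Polynomial ℤ) : PowerSeries ℤ) := by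
  classical
  have hfin := deg_fin (k := k) (K := K)
  set c : Place k K → PowerSeries ℤ := fun v =>
    1 - PowerSeries.C (χ v) * PowerSeries.X ^ S.deg v with hc
  set fT : Place k K → PowerSeries ℤ := fun v => if v ∈ T then 1 else c v with hfT
  set gT : Place k K → PowerSeries ℤ := fun v => if v ∈ T then c v else 1 with hgT
  have hfm : ∀ v, (PowerSeries.X : PowerSeries ℤ) ^ S.deg v ∣ fT v - 1 := fun v => by
    rw [hfT]
    simp only
    split_ifs
    · rw [sub_self]; exact dvd_zero _
    · exact fac_mod _ _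
  have hgm : ∀ v, (PowerSeries.X : PowerSeries ℤ) ^ S.deg v ∣ gT v - 1 := fun v => by
    rw [hgT]
    simp only
    split_ifs
    · exact fac_mod _ _
    · rw [sub_self]; exact dvd_zero _
  have e1 : c = fun v => fT v * gT v := by
    funext v
    rw [hfT, hgT]
    simp only
    split_ifs
    · rw [one_mul]
    · rw [mul_one]
  have e2 : eulerProd (fun v : Place k K => S.deg v) gT =
      ((∏ v ∈ T, (1 - Polynomial.C (χ v) * Polynomial.X ^ S.deg v) : Polynomial ℤ) :
        PowerSeries ℤ) := by
    rw [eulerProd_of_finset hfin hgm T (fun v hv => by rw [hgT]; simp only [if_neg hv]),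
      coe_prod']
    refine Finset.prod_congr rfl fun v hv => ?_
    rw [hgT]
    simp only [if_pos hv]
    rw [hc]
    simp only
    rw [Polynomial.coe_sub, Polynomial.coe_one, Polynomial.coe_mul, Polynomial.coe_pow,
      Polynomial.coe_X, Polynomial.coe_C]
  rw [e1, eulerProd_mul hfin hfm hgm, e2]
  rfl

theorem congr_main (a b : Fin r → K) (T : Finset (Place k K)) (χ : Place k K → ℤ)
    (hχ : ∀ v, v ∉ T → ∃ ε : Fin r → ℤ, (∀ i, ε i ^ 2 = 1) ∧ ∏ i, ε i = χ v ∧
      ∀ i, ((S.trace v (a i) (b i) : ℤ) : ZMod l) =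
        ((ε i : ℤ) : ZMod l) * (1 + ((Nat.card k : ℕ) : ZMod l) ^ S.deg v))
    {W E D G : Polynomial ℤ} (hW : (W : PowerSeries ℤ) * charProd T χ = (E : PowerSeries ℤ))
    (hG : (D : PowerSeries ℤ) * LT k T a b = (G : PowerSeries ℤ)) :
    G.map (Int.castRingHom (ZMod l)) * ∏ x : Fin r → Fin 2, sc l (Nat.card k) (nz x) E =
      D.map (Int.castRingHom (ZMod l)) * ∏ x : Fin r → Fin 2, sc l (Nat.card k) (nz x) W := by
  classical
  have hfin := deg_fin (k := k) (K := K)
  set d : Place k K → ℕ := fun v => S.deg v with hd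
  set φ := Int.castRingHom (ZMod l) with hφ
  set q : ZMod l := ((Nat.card k : ℕ) : ZMod l) with hq
  set c : Place k K → Polynomial ℤ := fun v =>
    1 - Polynomial.C (χ v) * Polynomial.X ^ S.deg v with hc
  set fT : Place k K → PowerSeries ℤ := fun v => if v ∈ T then 1 else c v with hfT
  have hcT : charProd T χ = eulerProd d fT := by
    unfold charProd
    congr 1
    funext v
    rw [hfT, hc]
    simp only
    rw [Polynomial.coe_sub, Polynomial.coe_one, Polynomial.coe_mul, Polynomial.coe_pow,
      Polynomial.coe_X, Polynomial.coe_C]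
  have hcm : ∀ v, (PowerSeries.X : PowerSeries ℤ) ^ d v ∣ (c v : PowerSeries ℤ) - 1 := fun v => by
    rw [hc]
    simp only
    rw [Polynomial.coe_sub, Polynomial.coe_one, Polynomial.coe_mul, Polynomial.coe_pow,
      Polynomial.coe_X, sub_right_comm, sub_self, zero_sub, dvd_neg]
    exact dvd_mul_left _ _
  have hfm : ∀ v, (PowerSeries.X : PowerSeries ℤ) ^ d v ∣ fT v - 1 := fun v => by
    rw [hfT]
    simp only
    split_ifs
    · rw [sub_self]; exact dvd_zero _
    · exact hcm v
  -- the congruence
  have hLm : ∀ v : Place k K, (PowerSeries.X : PowerSeries ℤ) ^ d v ∣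
      (if v ∈ T then 1 else PowerSeries.invOfUnit (tfac v a b : PowerSeries ℤ) 1) - 1 := fun v => by
    split_ifs
    · rw [sub_self]; exact dvd_zero _
    · exact inv_mod (tfac_inv v a b) (tfac_zero v a b)
  have hxm : ∀ (x : Fin r → Fin 2) (v : Place k K), (PowerSeries.X : PowerSeries (ZMod l)) ^ d v ∣
      PowerSeries.rescale (q ^ nz x) (PowerSeries.map φ (fT v)) - 1 := fun x v => by
    obtain ⟨g, hg⟩ := map_mod φ (hfm v)
    refine ⟨PowerSeries.C ((q ^ nz x) ^ d v) * PowerSeries.rescale (q ^ nz x) g, ?_⟩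
    have h := congrArg (PowerSeries.rescale (q ^ nz x)) hg
    rw [map_sub, map_one, map_mul, map_pow, PowerSeries.rescale_X, mul_pow, ← map_pow] at h
    rw [h]
    ring
  have h2 : PowerSeries.map φ (LT k T a b) * ∏ x : Fin r → Fin 2,
      PowerSeries.rescale (q ^ nz x) (PowerSeries.map φ (eulerProd d fT)) = 1 := by
    have e0 : ∀ x : Fin r → Fin 2, PowerSeries.rescale (q ^ nz x)
        (PowerSeries.map φ (eulerProd d fT)) =
        eulerProd d fun i => PowerSeries.rescale (q ^ nz x) (PowerSeries.map φ (fT i)) := fun x => by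
      rw [map_eulerProd hfin]
      exact Pool.Agent.W309.T3.rescale_eulerProd hfin _ _
    rw [Finset.prod_congr rfl fun x _ => e0 x]
    unfold LT
    rw [map_eulerProd hfin]
    rw [← eulerProd_prod hfin Finset.univ _ hxm,
      ← eulerProd_mul hfin (fun v => map_mod φ (hLm v)) (fun v => by
        have := prod_congr_mod Finset.univ (fun x : Fin r → Fin 2 =>
          PowerSeries.rescale (q ^ nz x) (PowerSeries.map φ (fT v))) (fun _ => 1) (d v)
          (fun x _ => hxm x v)
        rwa [Finset.prod_const_one] at this)]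
    have e1 : (fun v : Place k K => PowerSeries.map φ
        (if v ∈ T then 1 else PowerSeries.invOfUnit (tfac v a b : PowerSeries ℤ) 1) *
        ∏ x : Fin r → Fin 2, PowerSeries.rescale (q ^ nz x) (PowerSeries.map φ (fT v))) =
        fun _ => 1 := by
      funext v
      rw [hfT]
      simp only
      by_cases hv : v ∈ T
      · rw [if_pos hv, if_pos hv]
        simp only [map_one, Finset.prod_const_one, mul_one]
      · rw [if_neg hv, if_neg hv]
        obtain ⟨ε, hε1, hε2, hε3⟩ := hχ v hv
        have h3 := tfac_mod (l := l) a b (fun i => ((ε i : ℤ) : ZMod l))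
          (fun i => by rw [← Int.cast_pow, hε1, Int.cast_one]) hε3
        have h4 : ∏ x : Fin r → Fin 2,
            PowerSeries.rescale (q ^ nz x) (PowerSeries.map φ (c v : PowerSeries ℤ)) =
            PowerSeries.map φ (tfac v a b) := by
          rw [coe_map' φ (tfac v a b), h3, coe_prod']
          refine Finset.prod_congr rfl fun x _ => ?_
          rw [coe_map' φ (c v), Pool.Agent.W309.T3.rescale_poly]
          congr 1
          rw [hc]
          simp only
          rw [Polynomial.map_sub, Polynomial.map_one, Polynomial.map_mul, Polynomial.map_C,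
            Polynomial.map_pow, Polynomial.map_X, Polynomial.sub_comp, Polynomial.one_comp,
            Polynomial.mul_comp, Polynomial.C_comp, Polynomial.pow_comp, Polynomial.X_comp,
            mul_pow, ← Polynomial.C_pow, ← mul_assoc, ← Polynomial.C_mul, hφ, eq_intCast, ← hε2,
            Int.cast_prod, ← pow_mul, ← pow_mul, mul_comm (nz x)]
        rw [h4, mul_comm, ← map_mul, tfac_inv, map_one]
    rw [e1, eulerProd_one]
  -- conclusion
  have h3 : ∀ x : Fin r → Fin 2, ((sc l (Nat.card k) (nz x) E : Polynomial (ZMod l)) :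
      PowerSeries (ZMod l)) = ((sc l (Nat.card k) (nz x) W :
        Polynomial (ZMod l)) : PowerSeries (ZMod l)) *
      PowerSeries.rescale (q ^ nz x) (PowerSeries.map φ (eulerProd d fT)) := by
    intro x
    unfold sc
    rw [← Pool.Agent.W309.T3.rescale_poly, ← Pool.Agent.W309.T3.rescale_poly, ← coe_map',
      ← coe_map', ← hW, ← map_mul, ← map_mul, hcT]
  have h4 : PowerSeries.map φ (D : PowerSeries ℤ) * PowerSeries.map φ (LT k T a b) =
      PowerSeries.map φ (G : PowerSeries ℤ) := by
    rw [← map_mul, hG]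
  apply Polynomial.coe_injective
  rw [Polynomial.coe_mul, Polynomial.coe_mul, coe_prod', coe_prod', ← coe_map', ← coe_map', ← h4]
  simp only [h3]
  rw [Finset.prod_mul_distrib]
  linear_combination PowerSeries.map φ (D : PowerSeries ℤ) *
    (∏ x : Fin r → Fin 2, ((sc l (Nat.card k) (nz x) W :
        Polynomial (ZMod l)) : PowerSeries (ZMod l))) * h2

end main

end Pool.Agent.Y164.TP
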