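import Pool.Agent.Y164.TP.Main
import Pool.Agent.W309.RF.ZetaR
import Pool.Agent.TH180.R2.Pts

/-!
The family `y ^ 2 = x ^ 3 + (x + t ^ (3 ^ j)) ^ 2` over `k(t)`.
-/

set_option autoImplicit false
set_option linter.all false
set_option maxHeartbeats 1000000

open FF Module Polynomial

namespace Pool.Agent.Y164.TP

open Pool.Agent.W343.BSD Pool.Agent.H123R3.ZT
open Pool.Agent.W313.Gr (PointsDvd)
open Pool.Agent.TH639.B3 (chi LocSq exists_half locSq_iff trace_twist quad_data)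
open Pool.Agent.TH180.R2 (sA sB isT3_s disc_s)
open Pool.Agent.W309.RF

section deg

theorem dvd_card {q : ℕ} (hq : 3 ∣ q - 1) (hq0 : 0 < q) (j : ℕ) :
    3 ^ j * (q - 1) ∣ q ^ 3 ^ j - 1 ∧ 3 ∣ q ^ 3 ^ j - 1 := by
  induction j with
  | zero => simpa using hq
  | succ j ih =>
    obtain ⟨Q, hQ⟩ : ∃ Q, q ^ 3 ^ j = Q + 1 := ⟨q ^ 3 ^ j - 1, by
      have : 0 < q ^ 3 ^ j := pow_pos hq0 _
      omega⟩
    rw [hQ, Nat.add_sub_cancel] at ih
    have h1 : q ^ 3 ^ (j + 1) = (Q + 1) ^ 3 := by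
      rw [pow_succ, pow_mul, hQ]
    have h2 : (Q + 1) ^ 3 - 1 = Q * (Q ^ 2 + 3 * Q + 3) := by
      have : (Q + 1) ^ 3 = Q * (Q ^ 2 + 3 * Q + 3) + 1 := by ring
      omega
    rw [h1, h2]
    obtain ⟨e, he⟩ := ih.1
    obtain ⟨f, hf⟩ := ih.2
    refine ⟨⟨e * (3 * f ^ 2 + 3 * f + 1), ?_⟩, ⟨f * (Q ^ 2 + 3 * Q + 3), by rw [hf]; ring⟩⟩
    have h3 : Q ^ 2 + 3 * Q + 3 = 3 * (3 * f ^ 2 + 3 * f + 1) := by rw [hf]; ring
    rw [h3]
    calc Q * (3 * (3 * f ^ 2 + 3 * f + 1)) = (3 ^ j * (q - 1) * e) * (3 * (3 * f ^ 2 + 3 * f + 1)) := by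
          rw [← he]
      _ = 3 ^ (j + 1) * (q - 1) * (e * (3 * f ^ 2 + 3 * f + 1)) := by ring

theorem irr_deg {k : Type} [Field k] [Finite k] (hq : 3 ∣ Nat.card k - 1) {c : k} (hc : c ≠ 0)
    {j : ℕ} {π : k[X]} (hπ : Irreducible π) (hd : π ∣ X ^ 3 ^ j - C c) : π.natDegree ∣ 3 ^ j := by
  classical
  have : Fintype k := Fintype.ofFinite _
  have hF : Fact (Irreducible π) := ⟨hπ⟩
  have hfd : FiniteDimensional k (AdjoinRoot π) :=
    (AdjoinRoot.powerBasis hπ.ne_zero).finite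
  have hfin : Finite (AdjoinRoot π) := Module.finite_of_finite k
  have hroot : (AdjoinRoot.root π) ^ 3 ^ j = algebraMap k (AdjoinRoot π) c := by
    obtain ⟨e, he⟩ := hd
    have h1 : AdjoinRoot.mk π (X ^ 3 ^ j - C c) = 0 := by
      rw [he, map_mul, AdjoinRoot.mk_self, zero_mul]
    rw [map_sub, map_pow, AdjoinRoot.mk_X, sub_eq_zero] at h1
    rw [h1]
    rfl
  obtain ⟨e, he⟩ := (dvd_card hq Nat.card_pos j).1
  have hone : (AdjoinRoot.root π) ^ (Nat.card k ^ 3 ^ j - 1) = 1 := by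
    rw [he, mul_assoc, pow_mul, hroot, pow_mul, ← map_pow, Nat.card_eq_fintype_card,
      FiniteField.pow_card_sub_one_eq_one c hc, map_one, one_pow]
  have hpow : (AdjoinRoot.root π) ^ (Nat.card k ^ 3 ^ j) = AdjoinRoot.root π := by
    have h1 : Nat.card k ^ 3 ^ j = (Nat.card k ^ 3 ^ j - 1) + 1 := by
      have : 0 < Nat.card k ^ 3 ^ j := pow_pos Nat.card_pos _
      omega
    rw [h1, pow_succ, hone, one_mul]
  have hiter : ∀ (n : ℕ) (x : AdjoinRoot π),
      ((FiniteField.frobeniusAlgHom k (AdjoinRoot π)) ^ n) x = x ^ (Nat.card k ^ n) := by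
    intro n
    induction n with
    | zero => intro x; simp
    | succ n ih =>
      intro x
      rw [pow_succ, AlgHom.mul_apply, ih, FiniteField.coe_frobeniusAlgHom]
      show (x ^ Fintype.card k) ^ Nat.card k ^ n = _
      rw [← pow_mul, Nat.card_eq_fintype_card]
      congr 1
      ring
  have hF1 : (FiniteField.frobeniusAlgHom k (AdjoinRoot π)) ^ 3 ^ j = 1 := by
    apply AdjoinRoot.algHom_ext
    rw [hiter, hpow]
    rfl
  have h1 := orderOf_dvd_of_pow_eq_one hF1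
  rw [FiniteField.orderOf_frobeniusAlgHom] at h1
  have h2 : finrank k (AdjoinRoot π) = π.natDegree :=
    (AdjoinRoot.powerBasis hπ.ne_zero).finrank.trans (AdjoinRoot.powerBasis_dim hπ.ne_zero)
  rwa [h2] at h1

end deg

section fam

variable {k : Type} [Field k]

/-- the coefficient `a` of the short form -/
noncomputable def famA (k : Type) [Field k] (j : ℕ) : RatFunc k := 2 * RatFunc.X ^ 3 ^ j - 1 / 3

/-- the coefficient `b` of the short form -/
noncomputable def famB (k : Type) [Field k] (j : ℕ) : RatFunc k :=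
  (RatFunc.X ^ 3 ^ j) ^ 2 - 2 * RatFunc.X ^ 3 ^ j / 3 + 2 / 27

theorem famA_eq (j : ℕ) : famA k j = sA 1 (RatFunc.X ^ 3 ^ j) := by
  unfold famA sA
  ring

theorem famB_eq (j : ℕ) : famB k j = sB 1 (RatFunc.X ^ 3 ^ j) := by
  unfold famB sB
  ring

variable (h6 : (6 : k) ≠ 0)
include h6

theorem k3 : (3 : k) ≠ 0 := by
  intro h3
  apply h6
  have : (6 : k) = 2 * 3 := by norm_num
  rw [this, h3, mul_zero]

theorem R3 : (3 : RatFunc k) ≠ 0 := by
  have h3 := k3 h6
  have : (3 : RatFunc k) = algebraMap k (RatFunc k) 3 := by rw [map_ofNat]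
  rw [this]
  exact (_root_.map_ne_zero _).2 h3

theorem poly_ne (j : ℕ) : (C 4 - C 27 * X ^ 3 ^ j : k[X]) ≠ 0 := by
  intro h
  have h1 := congrArg (fun p => coeff p (3 ^ j)) h
  have h27 : (27 : k) ≠ 0 := TH180.R2.ne27 (k3 h6)
  have h3 : (3 ^ j) ≠ 0 := pow_ne_zero _ (by norm_num)
  simp only [coeff_sub, coeff_C_mul, coeff_X_pow, if_true, coeff_zero, coeff_C, if_neg h3,
    mul_one, zero_sub, neg_eq_zero] at h1
  exact h27 h1

theorem fam_disc (j : ℕ) : 4 * famA k j ^ 3 + 27 * famB k j ^ 2 =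
    -(A ((X ^ 3 ^ j) ^ 3 * (C 4 - C 27 * X ^ 3 ^ j))) := by
  rw [famA_eq, famB_eq, disc_s (R3 h6)]
  have e : (A ((X ^ 3 ^ j) ^ 3 * (C 4 - C 27 * X ^ 3 ^ j) : k[X])) =
      (RatFunc.X ^ 3 ^ j) ^ 3 * (4 - 27 * RatFunc.X ^ 3 ^ j) := by
    simp only [A, map_mul, map_sub, map_pow, RatFunc.algebraMap_X]
    have h4 : (algebraMap k[X] (RatFunc k)) (C 4) = 4 := by
      rw [show (C 4 : k[X]) = 4 from rfl, map_ofNat]
    have h27 : (algebraMap k[X] (RatFunc k)) (C 27) = 27 := by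
      rw [show (C 27 : k[X]) = 27 from rfl, map_ofNat]
    rw [h4, h27]
  rw [e]
  ring

theorem fam_ne (j : ℕ) : 4 * famA k j ^ 3 + 27 * famB k j ^ 2 ≠ 0 := by
  rw [fam_disc h6]
  exact neg_ne_zero.2 (A_ne (mul_ne_zero (pow_ne_zero _ (pow_ne_zero _ X_ne_zero)) (poly_ne h6 j)))

theorem fam_polyA (j : ℕ) : famA k j = A (C 2 * X ^ 3 ^ j - C (1 / 3)) := by
  unfold famA
  simp only [A, map_mul, map_sub, map_pow, RatFunc.algebraMap_X]
  have h2 : (algebraMap k[X] (RatFunc k)) (C 2) = 2 := by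
    rw [show (C 2 : k[X]) = 2 from rfl, map_ofNat]
  have h3 : (algebraMap k[X] (RatFunc k)) (C (1 / 3)) = 1 / 3 := by
    have : (algebraMap k[X] (RatFunc k)) (C (1 / 3)) = algebraMap k (RatFunc k) (1 / 3) := rfl
    rw [this, map_div₀, map_one, map_ofNat]
  rw [h2, h3]

theorem fam_polyB (j : ℕ) : famB k j =
    A ((X ^ 3 ^ j) ^ 2 - C (2 / 3) * X ^ 3 ^ j + C (2 / 27)) := by
  unfold famB
  simp only [A, map_mul, map_sub, map_add, map_pow, RatFunc.algebraMap_X]
  have h3 : (algebraMap k[X] (RatFunc k)) (C (2 / 3)) = 2 / 3 := by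
    have : (algebraMap k[X] (RatFunc k)) (C (2 / 3)) = algebraMap k (RatFunc k) (2 / 3) := rfl
    rw [this, map_div₀, map_ofNat, map_ofNat]
  have h27 : (algebraMap k[X] (RatFunc k)) (C (2 / 27)) = 2 / 27 := by
    have : (algebraMap k[X] (RatFunc k)) (C (2 / 27)) = algebraMap k (RatFunc k) (2 / 27) := rfl
    rw [this, map_div₀, map_ofNat, map_ofNat]
  rw [h3, h27]
  ring

variable [Finite k] (hq : 3 ∣ Nat.card k - 1)
include hq

/-- the degrees of the places of bad reduction are powers of three -/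
theorem fam_bad {j : ℕ} {v : Place k (RatFunc k)} (hv : v.ord (minDisc v (famA k j) (famB k j)) ≠ 0) :
    ∃ e : ℕ, S.deg v = 3 ^ e := by
  have hfan : FF.IsFF k (RatFunc k) := (W309.RK.sb k).1
  rw [S.deg_eq]
  by_cases hinf : v.ord RatFunc.X < 0
  · exact ⟨0, by rw [inf_deg hinf, pow_zero]⟩
  push Not at hinf
  obtain ⟨π, hm, hirr, hord, hnn, hdvd, hdeg⟩ := fin_exists hinf
  rw [hdeg]
  by_cases hX : 0 < v.ord (A (X : k[X]))
  · have h1 := (hdvd X X_ne_zero).1 hX
    have h2 := natDegree_le_of_dvd h1 X_ne_zero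
    rw [natDegree_X] at h2
    have h3 := hirr.natDegree_pos
    exact ⟨0, by rw [pow_zero]; omega⟩
  have hX0 : v.ord (A (X : k[X])) = 0 := by
    have := hnn X X_ne_zero
    omega
  by_cases hD : 0 < v.ord (A (C 4 - C 27 * X ^ 3 ^ j : k[X]))
  · have h1 := (hdvd _ (poly_ne h6 j)).1 hD
    have h27 : (27 : k) ≠ 0 := TH180.R2.ne27 (k3 h6)
    have h4 : (4 : k) ≠ 0 := by
      intro h4
      apply h6
      have h2 : (2 : k) = 0 := by
        have : (2 : k) * 2 = 0 := by rw [← h4]; norm_num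
        rcases mul_eq_zero.1 this with h | h <;> exact h
      have : (6 : k) = 2 * 3 := by norm_num
      rw [this, h2, zero_mul]
    have h2 : π ∣ X ^ 3 ^ j - C (4 / 27) := by
      have e : (X ^ 3 ^ j - C (4 / 27) : k[X]) = C (-(1 / 27)) * (C 4 - C 27 * X ^ 3 ^ j) := by
        have e1 : (C (-(1 / 27)) * C 4 : k[X]) = - C (4 / 27) := by
          rw [← C_mul, ← C_neg]
          congr 1
          ring
        have e2 : (C (-(1 / 27)) * C 27 : k[X]) = -1 := by
          rw [← C_mul, ← C_1, ← C_neg]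
          congr 1
          field_simp
        linear_combination -e1 + X ^ 3 ^ j * e2
      rw [e]
      exact h1.mul_left _
    have h3 := irr_deg hq (div_ne_zero h4 h27) hirr h2
    obtain ⟨e, -, he⟩ := (Nat.dvd_prime_pow Nat.prime_three).1 h3
    exact ⟨e, he⟩
  · exfalso
    apply hv
    have hD0 : v.ord (A (C 4 - C 27 * X ^ 3 ^ j : k[X])) = 0 := by
      have := hnn _ (poly_ne h6 j)
      omega
    have hreg : ∀ f : RatFunc k, v.Reg f → 0 ≤ v.ord f := by
      rintro f (h | h)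
      · rw [h, v.ord_zero]
      · exact h
    apply (S.ord_disc_iff v (fam_ne h6 j)).2
    apply good_of_ord v (fam_ne h6 j)
    · apply hreg
      rw [fam_polyA h6]
      exact fin_reg hinf _
    · apply hreg
      rw [fam_polyB h6]
      exact fin_reg hinf _
    · rw [fam_disc h6, v.ord_neg]
      show v.ord (algebraMap k[X] (RatFunc k) _) = 0
      have hX' : (A (X : k[X])) ≠ 0 := A_ne X_ne_zero
      rw [map_mul, map_pow, map_pow, v.ord_mul (pow_ne_zero _ (pow_ne_zero _ hX'))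
        (A_ne (poly_ne h6 j)), v.ord_pow, v.ord_pow, hX0, hD0]
      simp

/-- the theorem for the family -/
theorem main_fam {r : ℕ} (j : Fin r → ℕ) (δ : Fin r → k) (hδ : ¬ IsSquare (∏ i, δ i)) :
    ∃ T : Finset (Place k (RatFunc k)),
      (∀ v, v ∈ T ↔ ∃ i, v.ord (minDisc v ((algebraMap k (RatFunc k) (δ i)) ^ 2 * famA k (j i))
        ((algebraMap k (RatFunc k) (δ i)) ^ 3 * famB k (j i))) ≠ 0) ∧
      ∀ D G Q : ℤ[X], (D : PowerSeries ℤ) *
        LT k T (fun i => (algebraMap k (RatFunc k) (δ i)) ^ 2 * famA k (j i))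
        (fun i => (algebraMap k (RatFunc k) (δ i)) ^ 3 * famB k (j i)) = (G : PowerSeries ℤ) →
        Q.Monic → ¬ (3 : ℤ) ∣ Q.eval (-1) → CoprimeMod 3 (Nat.card k) Q D → NoZero k G Q := by
  classical
  have : Fact (Nat.Prime 3) := ⟨Nat.prime_three⟩
  have hfan : FF.IsFF k (RatFunc k) := (W309.RK.sb k).1
  have hδ0 : ∀ i, δ i ≠ 0 := by
    intro i hi
    apply hδ
    rw [Finset.prod_eq_zero (Finset.mem_univ i) hi]
    exact IsSquare.zero
  have hu : ∀ i, algebraMap k (RatFunc k) (δ i) ≠ 0 := fun i => (_root_.map_ne_zero _).2 (hδ0 i)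
  have hev : ∀ (v : Place k (RatFunc k)) i, Even (v.ord (algebraMap k (RatFunc k) (δ i))) :=
    fun v i => by rw [v.ord_const (hδ0 i)]; exact Even.zero
  have hdt : ∀ (v : Place k (RatFunc k)) i,
      v.ord (minDisc v ((algebraMap k (RatFunc k) (δ i)) ^ 2 * famA k (j i))
        ((algebraMap k (RatFunc k) (δ i)) ^ 3 * famB k (j i))) =
      v.ord (minDisc v (famA k (j i)) (famB k (j i))) := fun v i =>
    TH639.B3.disc_twist (fam_ne h6 (j i)) (hu i) (Int.not_odd_iff_even.2 (hev v i))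
  set T : Finset (Place k (RatFunc k)) :=
    Finset.univ.biUnion fun i => (bad_finite (k := k) (fam_ne h6 (j i))).toFinset with hT
  have hTm : ∀ v, v ∈ T ↔ ∃ i, v.ord (minDisc v (famA k (j i)) (famB k (j i))) ≠ 0 := by
    intro v
    rw [hT, Finset.mem_biUnion]
    constructor
    · rintro ⟨i, -, hi⟩
      rw [Set.Finite.mem_toFinset] at hi
      exact ⟨i, fun h => (S.ord_disc_iff v (fam_ne h6 (j i))).1 h hi⟩
    · rintro ⟨i, hi⟩
      refine ⟨i, Finset.mem_univ _, ?_⟩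
      rw [Set.Finite.mem_toFinset]
      by_contra h
      exact hi ((S.ord_disc_iff v (fam_ne h6 (j i))).2 h)
  have hdeg : ∀ v ∈ T, ∃ e : ℕ, S.deg v = 3 ^ e := by
    intro v hv
    obtain ⟨i, hi⟩ := (hTm v).1 hv
    exact fam_bad h6 hq hi
  refine ⟨T, fun v => ?_, ?_⟩
  · rw [hTm]
    constructor
    · rintro ⟨i, hi⟩
      exact ⟨i, by rw [hdt]; exact hi⟩
    · rintro ⟨i, hi⟩
      exact ⟨i, by rw [← hdt]; exact hi⟩
  · intro D G Q hG hQ hQ3 hD
    have h3k : ((3 : ℕ) : k) ≠ 0 := by exact_mod_cast k3 h6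
    have hu0 : ∏ i, algebraMap k (RatFunc k) (δ i) ≠ 0 :=
      Finset.prod_ne_zero_iff.2 fun i _ => hu i
    have hrel := const_rel (T := T) (u := ∏ i, algebraMap k (RatFunc k) (δ i)) (w := 1)
      (P := 1) h6 constDeg_rat (fun v hv => by
        obtain ⟨e, he⟩ := hdeg v hv
        rw [he]
        exact Odd.pow (by decide)) hu0 hδ (by rw [map_prod]; ring) isZetaNum_rat
    refine main_gen (l := 3) (T := T) h6 h3k (fun i => fam_ne h6 (j i)) hu ?_ ?_ hrel hG hD hQ ?_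
    · intro i
      rw [famA_eq, famB_eq]
      have h := fam_ne h6 (j i)
      rw [famA_eq, famB_eq] at h
      exact TH639.B3.pointsDvd_three h6 (isT3_s (R3 h6) _ _) h
    · intro v hv i
      refine ⟨?_, hev v i⟩
      by_contra h
      exact hv ((hTm v).2 ⟨i, h⟩)
    · intro s
      rw [sc_eq, sc_one (card_mod hq), one_comp, one_mul, Polynomial.map_prod]
      apply IsCoprime.prod_right
      intro v hv
      obtain ⟨e, he⟩ := hdeg v hv
      have e1 : (1 + X ^ S.deg v : ℤ[X]).map (Int.castRingHom (ZMod 3)) =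
          (X - C (-1)) ^ 3 ^ e := by
        rw [Polynomial.map_add, Polynomial.map_one, Polynomial.map_pow, Polynomial.map_X, he,
          map_neg, map_one, sub_neg_eq_add, add_comm, add_pow_char_pow, one_pow]
      rw [e1]
      apply IsCoprime.pow_right
      apply IsCoprime.symm
      rw [(irreducible_X_sub_C _).coprime_iff_not_dvd, dvd_iff_isRoot, IsRoot.def]
      intro h0
      apply hQ3
      have h2 := eval_map_apply (f := Int.castRingHom (ZMod 3)) (p := Q) (x := (-1 : ℤ))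
      rw [map_neg, map_one] at h2
      rw [h2, eq_intCast] at h0
      exact_mod_cast (ZMod.intCast_zmod_eq_zero_iff_dvd _ _).1 h0

end fam

end Pool.Agent.Y164.TP
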