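import Pool.Agent.Y164.TP.Rel
import Pool.Agent.TH639.B3.Quad

/-!
Absence of zeros of the `L`-functions of tensor products.
-/

set_option autoImplicit false
set_option linter.all false
set_option maxHeartbeats 1000000

open FF Module Polynomial

namespace Pool.Agent.Y164.TP

open Pool.Agent.W343.BSD Pool.Agent.H123R3.ZT
open Pool.Agent.W313.Gr (PointsDvd)
open Pool.Agent.TH639.B3 (chi LocSq exists_half locSq_iff trace_twist quad_data)

section gen

variable {k K : Type} [Field k] [Finite k] [Field K] [Algebra k K] [FF.IsFF k K]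

theorem eps_data (h6 : (6 : k) ≠ 0) {l : ℕ} {r : ℕ}
    {a b u : Fin r → K} (hΔ : ∀ i, 4 * a i ^ 3 + 27 * b i ^ 2 ≠ 0) (hu : ∀ i, u i ≠ 0)
    (hN : ∀ i, PointsDvd l k (a i) (b i)) {v : Place k K}
    (hg : ∀ i, v.ord (minDisc v (a i) (b i)) = 0) (hev : ∀ i, Even (v.ord (u i))) :
    ∃ ε : Fin r → ℤ, (∀ i, ε i ^ 2 = 1) ∧ ∏ i, ε i = chi v (∏ i, u i) ∧
      ∀ i, ((S.trace v (u i ^ 2 * a i) (u i ^ 3 * b i) : ℤ) : ZMod l) =
        ((ε i : ℤ) : ZMod l) * (1 + ((Nat.card k : ℕ) : ZMod l) ^ S.deg v) := by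
  refine ⟨fun i => chi v (u i), fun i => chi_sq (hev i), (chi_prod u hu hev).symm, fun i => ?_⟩
  have h1 := trace_twist h6 (v := v) (ab_of_disc (hΔ i)) (hu i) (Int.not_odd_iff_even.2 (hev i))
  have h2 := (ZMod.intCast_zmod_eq_zero_iff_dvd _ _).2 (hN i v (hg i))
  push_cast at h2
  rw [card_res] at h2
  rw [h1]
  push_cast
  linear_combination -((chi v (u i) : ℤ) : ZMod l) * h2

/-- `Q(X)` and `W(q ^ s X)` are coprime modulo `l`, for all `s` -/
def CoprimeMod (l q : ℕ) (Q W : ℤ[X]) : Prop :=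
  ∀ s : ℕ, IsCoprime (Q.map (Int.castRingHom (ZMod l)))
    ((W.comp (C ((q : ℤ) ^ s) * X)).map (Int.castRingHom (ZMod l)))

theorem sc_eq (l q n : ℕ) (P : ℤ[X]) :
    (P.comp (C ((q : ℤ) ^ n) * X)).map (Int.castRingHom (ZMod l)) = sc l q n P := by
  unfold sc
  rw [Polynomial.map_comp, Polynomial.map_mul, Polynomial.map_C, Polynomial.map_X]
  congr 3
  rw [map_pow, eq_intCast, Int.cast_natCast]

theorem sc_one {l q : ℕ} (hq : (q : ZMod l) = 1) (n : ℕ) (P : ℤ[X]) :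
    sc l q n P = P.map (Int.castRingHom (ZMod l)) := by
  unfold sc
  rw [hq, one_pow, C_1, one_mul, comp_X]

theorem card_mod {l : ℕ} (hl : l ∣ Nat.card k - 1) : ((Nat.card k : ℕ) : ZMod l) = 1 := by
  have hpos : 1 ≤ Nat.card k := Nat.card_pos
  have h1 : Nat.card k = (Nat.card k - 1) + 1 := by omega
  rw [h1, Nat.cast_add, (ZMod.natCast_eq_zero_iff _ _).2 hl, zero_add, Nat.cast_one]

theorem sc_sc (l q n m : ℕ) (P : ℤ[X]) :
    (sc l q n P).comp (C ((q : ZMod l) ^ m) * X) = sc l q (n + m) P := by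
  unfold sc
  rw [comp_assoc, mul_comp, C_comp, X_comp, ← mul_assoc, ← C_mul, ← pow_add]

theorem coprime_of {l q r : ℕ} {G D E W Q : ℤ[X]}
    (h : G.map (Int.castRingHom (ZMod l)) * ∏ x : Fin r → Fin 2, sc l q (nz x) E =
      D.map (Int.castRingHom (ZMod l)) * ∏ x : Fin r → Fin 2, sc l q (nz x) W)
    (hQ : CoprimeMod l q Q W) (hD : CoprimeMod l q Q D) (s : ℕ) :
    IsCoprime (Q.map (Int.castRingHom (ZMod l)))
      ((G.map (Int.castRingHom (ZMod l))).comp (C ((q : ZMod l) ^ s) * X)) := by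
  have h1 := congrArg (fun p => p.comp (C ((q : ZMod l) ^ s) * X)) h
  simp only [mul_comp, prod_comp, sc_sc] at h1
  have h2 : IsCoprime (Q.map (Int.castRingHom (ZMod l)))
      (∏ x : Fin r → Fin 2, sc l q (nz x + s) W) := by
    apply IsCoprime.prod_right
    intro x _
    rw [← sc_eq]
    exact hQ _
  have h3 : IsCoprime (Q.map (Int.castRingHom (ZMod l)))
      ((D.map (Int.castRingHom (ZMod l))).comp (C ((q : ZMod l) ^ s) * X)) := by
    have h4 := hD s
    rw [sc_eq] at h4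
    exact h4
  have h5 := h3.mul_right h2
  rw [← h1] at h5
  exact h5.of_mul_right_left

/-- the polynomial `G` does not vanish at the quotients of the roots of `Q` by the powers of `q` -/
def NoZero (k : Type) (G Q : ℤ[X]) : Prop :=
  ∀ (m : ℕ) (β : ℂ), aeval β Q = 0 → aeval (β / (Nat.card k : ℂ) ^ m) G ≠ 0

theorem noZero_of {l : ℕ} [Fact l.Prime] (hl : (l : k) ≠ 0) {r : ℕ} {G D E W Q : ℤ[X]}
    (h : G.map (Int.castRingHom (ZMod l)) * ∏ x : Fin r → Fin 2, sc l (Nat.card k) (nz x) E =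
      D.map (Int.castRingHom (ZMod l)) * ∏ x : Fin r → Fin 2, sc l (Nat.card k) (nz x) W)
    (hQ : Q.Monic) (hc : CoprimeMod l (Nat.card k) Q W) (hD : CoprimeMod l (Nat.card k) Q D) :
    NoZero k G Q := fun m β hβ =>
  eval_ne (card_ne_zero_mod (k := k) hl) hQ (coprime_of h hc hD) m hβ

/-- the general theorem -/
theorem main_gen {l : ℕ} [Fact l.Prime] (h6 : (6 : k) ≠ 0) (hl : (l : k) ≠ 0)
    {r : ℕ} {a b u : Fin r → K}
    (hΔ : ∀ i, 4 * a i ^ 3 + 27 * b i ^ 2 ≠ 0) (hu : ∀ i, u i ≠ 0)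
    (hN : ∀ i, PointsDvd l k (a i) (b i)) {T : Finset (Place k K)}
    (hg : ∀ v, v ∉ T → ∀ i, v.ord (minDisc v (a i) (b i)) = 0 ∧ Even (v.ord (u i)))
    {W E D G Q : ℤ[X]}
    (hW : (W : PowerSeries ℤ) * charProd T (fun v => chi v (∏ i, u i)) = (E : PowerSeries ℤ))
    (hG : (D : PowerSeries ℤ) * LT k T (fun i => u i ^ 2 * a i) (fun i => u i ^ 3 * b i) =
      (G : PowerSeries ℤ)) (hD : CoprimeMod l (Nat.card k) Q D)
    (hQ : Q.Monic) (hcop : CoprimeMod l (Nat.card k) Q W) :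
    NoZero k G Q := by
  have h1 := congr_main (l := l) (fun i => u i ^ 2 * a i) (fun i => u i ^ 3 * b i) T
    (fun v => chi v (∏ i, u i)) (fun v hv => eps_data h6 hΔ hu hN (fun i => (hg v hv i).1)
      (fun i => (hg v hv i).2)) hW hG
  exact noZero_of hl h1 hQ hcop hD

theorem chi_cs (h6 : (6 : k) ≠ 0) {δ : k} {u w : K} (hu : u ≠ 0) (hδ : ¬ IsSquare δ)
    (h : u = algebraMap k K δ * w ^ 2) (v : Place k K) : chi v u = (-1) ^ S.deg v := by
  have h2 : (2 : k) ≠ 0 := by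
    intro h; apply h6
    have : (6 : k) = 2 * 3 := by norm_num
    rw [this, h, zero_mul]
  have hw : w ≠ 0 := by
    rintro rfl
    apply hu
    rw [h]
    ring
  have hδ0 : algebraMap k K δ ≠ 0 := by
    intro h0
    apply hu
    rw [h, h0, zero_mul]
  rw [h, chi_mul_sq hδ0 hw, chi_const h2 hδ]

/-- the factor for a product of twists which is a constant times a square -/
theorem const_rel (h6 : (6 : k) ≠ 0)
    (hc : constDeg k K = 1) {T : Finset (Place k K)}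
    (hT : ∀ v ∈ T, Odd (S.deg v)) {δ : k} {u w : K} (hu : u ≠ 0) (hδ : ¬ IsSquare δ)
    (hprod : u = algebraMap k K δ * w ^ 2)
    {P : ℤ[X]} (hP : S.IsZetaNum k K P) :
    ((P.comp (-X) * ∏ v ∈ T, (1 + X ^ S.deg v) : ℤ[X]) : PowerSeries ℤ) *
      charProd T (fun v => chi v u) =
      (((1 + X) * (1 + C (Nat.card k : ℤ) * X) : ℤ[X]) : PowerSeries ℤ) := by
  have h1 := rel_const hc ((S.isZetaNum_iff P).1 hP)
  have hχ : (fun v : Place k K => chi v u) = fun v => (-1) ^ S.deg v := by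
    funext v
    exact chi_cs h6 hu hδ hprod v
  rw [hχ]
  rw [split_T T (fun v => (-1) ^ S.deg v)] at h1
  have e : (∏ v ∈ T, (1 - C ((-1) ^ S.deg v) * X ^ S.deg v) : ℤ[X]) =
      ∏ v ∈ T, (1 + X ^ S.deg v) := by
    refine Finset.prod_congr rfl fun v hv => ?_
    rw [(hT v hv).neg_one_pow, map_neg, map_one, neg_mul, one_mul, sub_neg_eq_add]
  rw [e] at h1
  rw [← h1, Polynomial.coe_mul]
  ring

end gen

end Pool.Agent.Y164.TP
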