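import Pool.Agent.Y164.TP.Congr

/-!
Quadratic characters at the places, and the relations between Euler products.
-/

set_option autoImplicit false
set_option linter.all false
set_option maxHeartbeats 1000000

open FF Module

namespace Pool.Agent.Y164.TP

open Pool.Agent.W343.BSD Pool.Agent.H123R3.ZT
open Pool.Agent.TH639.B3 (chi LocSq exists_half locSq_iff trace_twist fib_prod mod_of_mul)
open Pool.Agent.W309.T3 (rescale_eulerProd rescale_poly)

section chi

variable {k K : Type} [Field k] [Finite k] [Field K] [Algebra k K] [FF.IsFF k K] {v : Place k K}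

theorem chi_sq {u : K} (h : Even (v.ord u)) : chi v u ^ 2 = 1 := by
  unfold TH639.B3.chi
  rw [if_neg (Int.not_odd_iff_even.2 h)]
  split_ifs <;> norm_num

theorem chi_eq [Fintype v.RF] [DecidableEq v.RF] {u t : K} (hu : u ≠ 0) (ht0 : t ≠ 0)
    (ht : v.ord u = 2 * v.ord t) : chi v u = quadraticChar v.RF (v.red (u / t ^ 2)) := by
  have ht2 : t ^ 2 ≠ 0 := pow_ne_zero 2 ht0
  have hro : v.ord (u / t ^ 2) = 0 := by
    rw [v.ord_div hu ht2, v.ord_pow, ht]
    push_cast
    ring
  have hub : v.red (u / t ^ 2) ≠ 0 := v.red_ne_zero (div_ne_zero hu ht2) hro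
  have hev : ¬ Odd (v.ord u) := by
    rw [Int.not_odd_iff_even, ht]
    exact even_two_mul _
  unfold TH639.B3.chi
  rw [if_neg hev]
  by_cases hl : LocSq v u
  · rw [if_pos hl]
    exact ((quadraticChar_one_iff_isSquare hub).2 ((locSq_iff hu ht0 ht).1 hl)).symm
  · rw [if_neg hl]
    have h3 : ¬ IsSquare (v.red (u / t ^ 2)) := fun h => hl ((locSq_iff hu ht0 ht).2 h)
    rcases quadraticChar_dichotomy hub with h4 | h4
    · exact absurd ((quadraticChar_one_iff_isSquare hub).1 h4) h3
    · exact h4.symm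

theorem chi_mul {u w : K} (hu : u ≠ 0) (hw : w ≠ 0) (h : Even (v.ord u)) (h' : Even (v.ord w)) :
    chi v (u * w) = chi v u * chi v w := by
  classical
  have : Fintype v.RF := Fintype.ofFinite _
  obtain ⟨t, ht0, ht⟩ := exists_half (Int.not_odd_iff_even.2 h)
  obtain ⟨s, hs0, hs⟩ := exists_half (Int.not_odd_iff_even.2 h')
  have h1 : v.ord (u * w) = 2 * v.ord (t * s) := by
    rw [v.ord_mul hu hw, v.ord_mul ht0 hs0, ht, hs]
    ring
  have e : u * w / (t * s) ^ 2 = (u / t ^ 2) * (w / s ^ 2) := by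
    field_simp
  have r1 : v.Reg (u / t ^ 2) := by
    right
    rw [v.ord_div hu (pow_ne_zero 2 ht0), v.ord_pow, ht]
    push_cast
    omega
  have r2 : v.Reg (w / s ^ 2) := by
    right
    rw [v.ord_div hw (pow_ne_zero 2 hs0), v.ord_pow, hs]
    push_cast
    omega
  rw [chi_eq (mul_ne_zero hu hw) (mul_ne_zero ht0 hs0) h1, chi_eq hu ht0 ht, chi_eq hw hs0 hs, e,
    v.red_mul r1 r2, map_mul]

theorem ord_prod {r : ℕ} (u : Fin r → K) (hu : ∀ i, u i ≠ 0) (h : ∀ i, Even (v.ord (u i)))
    (s : Finset (Fin r)) : ∏ i ∈ s, u i ≠ 0 ∧ Even (v.ord (∏ i ∈ s, u i)) := by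
  classical
  induction s using Finset.induction_on with
  | empty => exact ⟨by simp, by rw [Finset.prod_empty, v.ord_one]; exact Even.zero⟩
  | insert i s hi ih =>
    rw [Finset.prod_insert hi]
    refine ⟨mul_ne_zero (hu i) ih.1, ?_⟩
    rw [v.ord_mul (hu i) ih.1]
    exact (h i).add ih.2

theorem chi_one : chi v (1 : K) = 1 := by
  unfold TH639.B3.chi
  rw [if_neg (by rw [v.ord_one]; decide), if_pos ⟨1, Or.inl (by ring)⟩]

theorem chi_prod {r : ℕ} (u : Fin r → K) (hu : ∀ i, u i ≠ 0) (h : ∀ i, Even (v.ord (u i))) :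
    chi v (∏ i, u i) = ∏ i, chi v (u i) := by
  classical
  have key : ∀ s : Finset (Fin r), chi v (∏ i ∈ s, u i) = ∏ i ∈ s, chi v (u i) := by
    intro s
    induction s using Finset.induction_on with
    | empty => rw [Finset.prod_empty, Finset.prod_empty, chi_one]
    | insert i s hi ih =>
      rw [Finset.prod_insert hi, Finset.prod_insert hi, ← ih]
      obtain ⟨h1, h2⟩ := ord_prod u hu h s
      exact chi_mul (hu i) h1 (h i) h2
  exact key Finset.univ

theorem chi_mul_sq {u w : K} (hu : u ≠ 0) (hw : w ≠ 0) : chi v (u * w ^ 2) = chi v u := by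
  have h2 : Even (v.ord (w ^ 2)) := by
    rw [v.ord_pow]
    exact ⟨v.ord w, by push_cast; ring⟩
  by_cases h : Odd (v.ord u)
  · have h' : Odd (v.ord (u * w ^ 2)) := by
      rw [v.ord_mul hu (pow_ne_zero 2 hw)]
      exact h.add_even h2
    unfold TH639.B3.chi
    rw [if_pos h, if_pos h']
  · rw [chi_mul hu (pow_ne_zero 2 hw) (Int.not_odd_iff_even.1 h) h2]
    have : chi v (w ^ 2) = 1 := by
      unfold TH639.B3.chi
      rw [if_neg (Int.not_odd_iff_even.2 h2), if_pos ⟨w, Or.inl rfl⟩]
    rw [this, mul_one]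

theorem sq_of_even {k M : Type} [Field k] [Finite k] [Field M] [Algebra k M] [FiniteDimensional k M]
    (h2 : (2 : k) ≠ 0) (h : Even (finrank k M)) (c : k) : IsSquare (algebraMap k M c) := by
  classical
  by_cases hc : c = 0
  · rw [hc, map_zero]
    exact IsSquare.zero
  have : Finite M := Module.finite_of_finite k
  have : Fintype M := Fintype.ofFinite _
  have : Fintype k := Fintype.ofFinite _
  have hM : ringChar M ≠ 2 := by
    intro h3
    have h4 : ((2 : ℕ) : M) = 0 := by rw [← h3]; exact CharP.cast_eq_zero M _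
    have h5 : (algebraMap k M) 2 = 0 := by rw [map_ofNat]; exact_mod_cast h4
    exact h2 ((_root_.map_eq_zero _).1 h5)
  have hk : ringChar k ≠ 2 := by
    intro h3
    apply h2
    have h4 : ((2 : ℕ) : k) = 0 := by rw [← h3]; exact CharP.cast_eq_zero k _
    exact_mod_cast h4
  have hc' : algebraMap k M c ≠ 0 := (_root_.map_ne_zero _).2 hc
  rw [FiniteField.isSquare_iff hM hc', ← map_pow]
  obtain ⟨n, hn⟩ := h
  have hcard : Fintype.card M = (Fintype.card k ^ 2) ^ n := by
    rw [Module.card_eq_pow_finrank (K := k) (V := M), hn, ← pow_mul]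
    congr 1
    ring
  obtain ⟨q, hq⟩ : ∃ q, Fintype.card k = q := ⟨_, rfl⟩
  have hodd : q % 2 = 1 := by
    rw [← hq]
    exact FiniteField.odd_card_of_char_ne_two hk
  have hdvd : (q - 1) ∣ (q ^ 2) ^ n / 2 := by
    obtain ⟨m, hm⟩ : ∃ m, q = 2 * m + 1 := ⟨q / 2, by omega⟩
    have h1 : q ^ 2 - 1 ∣ (q ^ 2) ^ n - 1 := by
      have := Nat.sub_dvd_pow_sub_pow (q ^ 2) 1 n
      rwa [one_pow] at this
    obtain ⟨e, he⟩ := h1
    have h3 : q ^ 2 - 1 = 2 * ((q - 1) * (m + 1)) := by
      rw [hm]
      have : (2 * m + 1) ^ 2 = 2 * ((2 * m + 1 - 1) * (m + 1)) + 1 := by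
        rw [Nat.add_sub_cancel]
        ring
      omega
    have h4 : 1 ≤ (q ^ 2) ^ n := Nat.one_le_iff_ne_zero.2 (pow_ne_zero _ (pow_ne_zero _ (by omega)))
    have h5 : (q ^ 2) ^ n = 2 * ((q - 1) * (m + 1) * e) + 1 := by
      rw [h3] at he
      have : 2 * ((q - 1) * (m + 1)) * e = 2 * ((q - 1) * (m + 1) * e) := by ring
      omega
    rw [h5]
    have h6 : (2 * ((q - 1) * (m + 1) * e) + 1) / 2 = (q - 1) * (m + 1) * e := by omega
    rw [h6]
    exact ⟨(m + 1) * e, by ring⟩
  rw [hcard, hq]
  obtain ⟨e, he⟩ := hdvd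
  rw [he, pow_mul, ← hq, FiniteField.pow_card_sub_one_eq_one c hc, one_pow, map_one]

theorem chi_const (h2 : (2 : k) ≠ 0) {δ : k} (hns : ¬ IsSquare δ) :
    chi v (algebraMap k K δ) = (-1) ^ S.deg v := by
  classical
  have : Fintype v.RF := Fintype.ofFinite _
  have hδ : δ ≠ 0 := by
    rintro rfl
    exact hns IsSquare.zero
  have hu : algebraMap k K δ ≠ 0 := (_root_.map_ne_zero _).2 hδ
  have h0 : v.ord (algebraMap k K δ) = 2 * v.ord (1 : K) := by
    rw [v.ord_const hδ, v.ord_one, mul_zero]
  have hb : v.red (algebraMap k K δ / 1 ^ 2) = algebraMap k v.RF δ := by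
    rw [one_pow, div_one]
    rfl
  have hfd : FiniteDimensional k v.RF := Module.finite_of_finrank_pos (H525R3.FFp.deg_pos v)
  rw [chi_eq hu one_ne_zero h0, hb, S.deg_eq]
  have hne : algebraMap k v.RF δ ≠ 0 := (_root_.map_ne_zero _).2 hδ
  rcases Nat.even_or_odd v.deg with he | ho
  · rw [he.neg_one_pow, quadraticChar_one_iff_isSquare hne]
    exact sq_of_even h2 he δ
  · rw [ho.neg_one_pow]
    rcases quadraticChar_dichotomy hne with h4 | h4
    · exfalso
      apply hns
      exact isSquare_of_odd ho ((quadraticChar_one_iff_isSquare hne).1 h4)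
    · exact h4
where
  isSquare_of_odd {k M : Type} [Field k] [Field M] [Algebra k M]
    (h : Odd (Module.finrank k M)) {c : k} (hc : IsSquare (algebraMap k M c)) : IsSquare c := by
    by_contra hn
    haveI : FiniteDimensional k M := Module.finite_of_finrank_pos h.pos
    obtain ⟨b, hb⟩ := hc
    have hirr : Irreducible (Polynomial.X ^ 2 - Polynomial.C c : Polynomial k) := by
      rw [Polynomial.irreducible_iff_roots_eq_zero_of_degree_le_three]
      · rw [Multiset.eq_zero_iff_forall_notMem]
        intro x hx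
        have hx' := (Polynomial.mem_roots'.1 hx).2
        apply hn
        refine ⟨x, ?_⟩
        have : x ^ 2 - c = 0 := by simpa [Polynomial.IsRoot.def] using hx'
        linear_combination -this
      · rw [Polynomial.natDegree_X_pow_sub_C]
      · rw [Polynomial.natDegree_X_pow_sub_C]; norm_num
    have hmin : minpoly k b = Polynomial.X ^ 2 - Polynomial.C c := by
      symm
      apply minpoly.eq_of_irreducible_of_monic hirr
      · simp [hb, pow_two]
      · exact Polynomial.monic_X_pow_sub_C c two_ne_zero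
    have hdvd := minpoly.degree_dvd (K := k) (L := M) (x := b) (Algebra.IsIntegral.isIntegral _)
    rw [hmin, Polynomial.natDegree_X_pow_sub_C] at hdvd
    rw [← Nat.not_even_iff_odd] at h
    exact h (even_iff_two_dvd.2 hdvd)

end chi

section rel

variable {k K : Type} [Field k] [Finite k] [Field K] [Algebra k K] [FF.IsFF k K]

/-- the relation for the character of a constant -/
theorem rel_const (hc : constDeg k K = 1) {P : Polynomial ℤ} (hP : IsZetaNumRel k K P) :
    ((P.comp (-Polynomial.X) : Polynomial ℤ) : PowerSeries ℤ) *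
      eulerProd (fun v : Place k K => S.deg v)
        (fun v => 1 - PowerSeries.C ((-1) ^ S.deg v) * PowerSeries.X ^ S.deg v) =
      (((1 + Polynomial.X) * (1 + Polynomial.C (Nat.card k : ℤ) * Polynomial.X) :
        Polynomial ℤ) : PowerSeries ℤ) := by
  have hfin := fun n => places_fin (k := k) (K := K) n
  unfold IsZetaNumRel at hP
  rw [hc] at hP
  have h1 := congrArg (PowerSeries.rescale (-1 : ℤ)) hP
  rw [map_mul, rescale_eulerProd hfin, rescale_poly] at h1
  have e1 : (fun v : Place k K => PowerSeries.rescale (-1 : ℤ) (1 - PowerSeries.X ^ v.deg)) =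
      fun v => 1 - PowerSeries.C ((-1) ^ S.deg v) * PowerSeries.X ^ S.deg v := by
    funext v
    rw [map_sub, map_one, map_pow, PowerSeries.rescale_X, mul_pow, ← map_pow, S.deg_eq]
  have e2 : P.comp (Polynomial.C (-1) * Polynomial.X) = P.comp (-Polynomial.X) := by
    congr 1
    rw [map_neg, map_one, neg_mul, one_mul]
  rw [e1, e2] at h1
  have e0 : (fun v : Place k K => S.deg v) = fun v => v.deg := by
    funext v
    exact S.deg_eq v
  rw [e0, h1, Polynomial.coe_mul, Polynomial.coe_add, Polynomial.coe_add, Polynomial.coe_mul,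
    Polynomial.coe_one, Polynomial.coe_X, Polynomial.coe_C, map_mul, map_sub, map_sub, map_one,
    map_mul, pow_one, PowerSeries.rescale_X, pow_one]
  have e3 : PowerSeries.rescale (-1 : ℤ) (PowerSeries.C (Nat.card k : ℤ)) =
      PowerSeries.C (Nat.card k : ℤ) := by
    ext n
    rw [PowerSeries.coeff_rescale, PowerSeries.coeff_C]
    split_ifs with h
    · rw [h, pow_zero, one_mul]
    · rw [mul_zero]
  rw [e3, map_neg, map_one]
  ring

variable {L : Type} [Field L]
  [Algebra k L] [Algebra K L] [IsScalarTower k K L] [FF.IsFF k L] [FiniteDimensional K L]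
  [IsGalois K L]

/-- the relation for the character of a quadratic extension -/
theorem rel_quad (h6 : (6 : k) ≠ 0) (hn : finrank K L = 2) {u : K} (hu : u ≠ 0) {θ : L}
    (hθ : θ ^ 2 = algebraMap K L u) (hns : ∀ s : K, u ≠ s ^ 2) {P R : Polynomial ℤ}
    (hP : IsZetaNumRel k K P) (hQ : IsZetaNumRel k L (P * R)) (hr : constDeg k K = 1) :
    ∃ E : Polynomial ℤ, (R : PowerSeries ℤ) * eulerProd (fun v : Place k K => S.deg v)
      (fun v => 1 - PowerSeries.C (chi v u) * PowerSeries.X ^ S.deg v) = (E : PowerSeries ℤ) := by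
  have hD := fun v : Place k K => exists_galoisFiber (L := L) v
  choose S' e f D using hD
  have hfin := fun n => places_fin (k := k) (K := K) n
  have h1 : eulerProd (fun w : Place k L => w.deg)
      (fun w => (1 - PowerSeries.X ^ w.deg : PowerSeries ℤ)) =
      eulerProd (fun v : Place k K => v.deg)
        (fun v => (1 - PowerSeries.X ^ v.deg : PowerSeries ℤ)) *
      eulerProd (fun v : Place k K => v.deg)
        (fun v => 1 - PowerSeries.C (chi v u) * PowerSeries.X ^ v.deg) := by
    rw [← euler_fiber D (g := fun w => (1 - PowerSeries.X ^ w.deg : PowerSeries ℤ)) (fun w => by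
      rw [sub_right_comm, sub_self, zero_sub]; exact (dvd_neg).2 dvd_rfl)]
    rw [← eulerProd_mul hfin (fun v => by
      rw [sub_right_comm, sub_self, zero_sub]; exact (dvd_neg).2 dvd_rfl)
      (fun v => mod_of_mul _ _)]
    congr 1
    funext v
    exact fib_prod h6 (D v) hn hu hθ hns
  unfold IsZetaNumRel at hP hQ
  rw [hr] at hP
  simp only [pow_one] at hP
  rw [h1, Polynomial.coe_mul] at hQ
  set c := constDeg k L with hc
  set q : ℤ := (Nat.card k : ℤ) with hq
  set E : Polynomial ℤ := (∑ i ∈ Finset.range c, Polynomial.X ^ i) *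
    (∑ i ∈ Finset.range c, (Polynomial.C q * Polynomial.X) ^ i) with hE
  refine ⟨E, ?_⟩
  have hE1 : (1 - Polynomial.X) * (1 - Polynomial.C q * Polynomial.X) * E =
      (1 - Polynomial.X ^ c) * (1 - Polynomial.C (q ^ c) * Polynomial.X ^ c) := by
    have g1 := mul_neg_geom_sum (Polynomial.X : Polynomial ℤ) c
    have g2 := mul_neg_geom_sum (Polynomial.C q * Polynomial.X : Polynomial ℤ) c
    rw [mul_pow, ← Polynomial.C_pow] at g2
    rw [← g1, ← g2, hE]
    ring
  have hE2 := congrArg (fun p : Polynomial ℤ => (p : PowerSeries ℤ)) hE1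
  simp only [Polynomial.coe_mul, Polynomial.coe_sub, Polynomial.coe_one, Polynomial.coe_X,
    Polynomial.coe_C, Polynomial.coe_pow] at hE2
  have hne : ((1 - PowerSeries.X) * (1 - PowerSeries.C q * PowerSeries.X) : PowerSeries ℤ) ≠ 0 := by
    intro h0
    have h2 := congrArg (PowerSeries.constantCoeff (R := ℤ)) h0
    simp at h2
  apply mul_left_cancel₀ hne
  simp only [S.deg_eq]
  linear_combination hQ - hE2 - (R : PowerSeries ℤ) * eulerProd (fun v : Place k K => v.deg)
        (fun v => 1 - PowerSeries.C (chi v u) * PowerSeries.X ^ v.deg) * hP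

end rel

end Pool.Agent.Y164.TP
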